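import Pool.Agent.H27.G.R_seed8.H705R2.MLogE
import Pool.Agent.H27.G.R_seed8.H807R2.DavIface

/-!
Siegel–Walfisz for the Moebius function: residue classes (not necessarily reduced).
The lemmas `mc_apply`, `mu_mul`, `sum_dvd`, `term_eq` are copied from Helper245.MobAP.
-/

set_option autoImplicit false

open Filter Topology

namespace Pool.Agent.H705R2.MSW

open Complex DirichletCharacter ArithmeticFunction

section coprime

variable {q : ℕ} [NeZero q]

/-- indicator of a residue class times `μ` -/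
noncomputable def mc (a : ZMod q) (n : ℕ) : ℝ := if (n : ZMod q) = a then (moebius n : ℝ) else 0

lemma mc_apply {a : ZMod q} (ha : IsUnit a) (n : ℕ) :
    ((mc a n : ℝ) : ℂ) = (q.totient : ℂ)⁻¹ * ∑ χ : DirichletCharacter ℂ q, χ a⁻¹ * (χ n * ((moebius n : ℤ) : ℂ)) := by
  rw [eq_inv_mul_iff_mul_eq₀ <| mod_cast (Nat.totient_pos.mpr q.pos_of_neZero).ne']
  simp_rw [← mul_assoc]
  rw [← Finset.sum_mul, sum_char_inv_mul_char_eq ℂ ha n]
  unfold mc
  by_cases h : (n : ZMod q) = a
  · rw [if_pos h, if_pos h.symm]; push_cast; ring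
  · rw [if_neg h, if_neg (fun h' => h h'.symm)]; push_cast; ring

lemma mu_mul (d m : ℕ) : moebius (d * m) = if Nat.Coprime m d then moebius d * moebius m else 0 := by
  split_ifs with h
  · exact isMultiplicative_moebius.map_mul_of_coprime h.symm
  · apply moebius_eq_zero_of_not_squarefree
    intro hs
    exact h (Nat.squarefree_mul_iff.mp hs).1.symm

lemma sum_dvd (d N : ℕ) (hd : 0 < d) (g : ℕ → ℝ) :
    ∑ n ∈ Finset.range N, (if d ∣ n then g (n / d) else 0) = ∑ m ∈ Finset.range ((N + d - 1) / d), g m := by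
  rw [← Finset.sum_filter]
  symm
  refine Finset.sum_bij (fun m _ => d * m) ?_ ?_ ?_ ?_
  · intro m hm
    rw [Finset.mem_range] at hm
    rw [Finset.mem_filter, Finset.mem_range]
    refine ⟨?_, dvd_mul_right d m⟩
    have h1 : (m + 1) * d ≤ N + d - 1 := (Nat.le_div_iff_mul_le hd).mp hm
    have : (m + 1) * d = d * m + d := by ring
    omega
  · intro m _ m' _ h
    exact Nat.eq_of_mul_eq_mul_left hd h
  · intro n hn
    rw [Finset.mem_filter, Finset.mem_range] at hn
    obtain ⟨h1, m, rfl⟩ := hn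
    refine ⟨m, ?_, rfl⟩
    rw [Finset.mem_range]
    have h2 : (m + 1) * d ≤ N + d - 1 := by
      have : (m + 1) * d = d * m + d := by ring
      omega
    exact (Nat.le_div_iff_mul_le hd).mpr h2
  · intro m _
    rw [Nat.mul_div_cancel_left m hd]

open Classical in
lemma term_eq {d q1 a1 : ℕ} (hd : 0 < d) (hc : Nat.Coprime a1 q1) (n : ℕ)
    [NeZero (d * q1)] :
    (if n % (d * q1) = d * a1 then (moebius n : ℝ) else 0) =
      if d ∣ n then (moebius d : ℝ) * ∑ b ∈ Finset.univ.filter (fun b : ZMod (d * q1) => IsUnit b ∧ b.val % q1 = a1),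
        mc b (n / d) else 0 := by
  by_cases hdn : d ∣ n
  · obtain ⟨m, rfl⟩ := hdn
    rw [if_pos (dvd_mul_right d m), Nat.mul_div_cancel_left m hd, Nat.mul_mod_mul_left]
    have h1 : ∑ b ∈ Finset.univ.filter (fun b : ZMod (d * q1) => IsUnit b ∧ b.val % q1 = a1), mc b m
        = if (Nat.Coprime m (d * q1) ∧ m % q1 = a1) then (moebius m : ℝ) else 0 := by
      unfold mc
      rw [Finset.sum_ite_eq]
      have h2 : ((m : ZMod (d * q1)) ∈ Finset.univ.filter (fun b : ZMod (d * q1) => IsUnit b ∧ b.val % q1 = a1))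
          ↔ (Nat.Coprime m (d * q1) ∧ m % q1 = a1) := by
        rw [Finset.mem_filter, ZMod.val_natCast, Nat.mod_mul_left_mod, ZMod.isUnit_iff_coprime]
        simp
      by_cases h3 : (Nat.Coprime m (d * q1) ∧ m % q1 = a1)
      · rw [if_pos h3, if_pos (h2.mpr h3)]
      · rw [if_neg h3, if_neg (fun h => h3 (h2.mp h))]
    rw [h1, mu_mul]
    by_cases hm : m % q1 = a1
    · have hmq : Nat.Coprime m q1 := by
        have := hc
        rw [← hm] at this
        unfold Nat.Coprime at this ⊢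
        rwa [← Nat.gcd_rec, Nat.gcd_comm] at this
      have h2 : d * (m % q1) = d * a1 := by rw [hm]
      rw [if_pos h2]
      by_cases hmd : Nat.Coprime m d
      · have h3 : Nat.Coprime m (d * q1) := Nat.Coprime.mul_right hmd hmq
        rw [if_pos hmd, if_pos ⟨h3, hm⟩]
        push_cast; ring
      · have h3 : ¬ (Nat.Coprime m (d * q1) ∧ m % q1 = a1) := by
          rintro ⟨h4, _⟩
          exact hmd (Nat.Coprime.coprime_mul_right_right h4)
        rw [if_neg hmd, if_neg h3]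
        simp
    · have h2 : ¬ (d * (m % q1) = d * a1) := by
        intro h
        exact hm (Nat.eq_of_mul_eq_mul_left hd h)
      have h3 : ¬ (Nat.Coprime m (d * q1) ∧ m % q1 = a1) := fun h => hm h.2
      rw [if_neg h2, if_neg h3, mul_zero]
  · rw [if_neg hdn, if_neg]
    intro h
    apply hdn
    have h1 : d ∣ n % (d * q1) := by rw [h]; exact dvd_mul_right _ _
    exact (Nat.dvd_mod_iff (dvd_mul_right _ _)).mp h1

lemma unit_class_aux {b : ZMod q} (hb : IsUnit b) {x Y : ℝ}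
    (h : ∀ χ : DirichletCharacter ℂ q, ‖Mx x q χ‖ ≤ Y) :
    |∑ n ∈ Finset.Icc 1 ⌊x⌋₊, mc b n| ≤ Y := by
  have h1 : ((∑ n ∈ Finset.Icc 1 ⌊x⌋₊, mc b n : ℝ) : ℂ) =
      (q.totient : ℂ)⁻¹ * ∑ χ : DirichletCharacter ℂ q, χ b⁻¹ * Mx x q χ := by
    push_cast
    simp_rw [mc_apply hb]
    rw [← Finset.mul_sum, Finset.sum_comm]
    congr 1
    apply Finset.sum_congr rfl
    intro χ _
    unfold Mx cm
    rw [Finset.mul_sum]
  have hφ : (0 : ℝ) < q.totient := by exact_mod_cast Nat.totient_pos.mpr q.pos_of_neZero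
  rw [← Real.norm_eq_abs, ← Complex.norm_real, h1, norm_mul, norm_inv, Complex.norm_natCast]
  have h2 : ‖∑ χ : DirichletCharacter ℂ q, χ b⁻¹ * Mx x q χ‖ ≤ q.totient * Y := by
    calc _ ≤ ∑ _χ : DirichletCharacter ℂ q, Y := by
          refine norm_sum_le_of_le _ (fun χ _ => ?_)
          rw [norm_mul]
          have h3 := χ.norm_le_one b⁻¹
          calc _ ≤ 1 * ‖Mx x q χ‖ := mul_le_mul_of_nonneg_right h3 (norm_nonneg _)
            _ ≤ Y := by rw [one_mul]; exact h χ
      _ = q.totient * Y := by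
          rw [Finset.sum_const, nsmul_eq_mul, Finset.card_univ, ← Nat.card_eq_fintype_card,
            DirichletCharacter.card_eq_totient_of_hasEnoughRootsOfUnity ℂ q]
  calc (q.totient : ℝ)⁻¹ * ‖∑ χ : DirichletCharacter ℂ q, χ b⁻¹ * Mx x q χ‖ ≤
        (q.totient : ℝ)⁻¹ * (q.totient * Y) := mul_le_mul_of_nonneg_left h2 (by positivity)
    _ = Y := by field_simp

end coprime

lemma sum_range_mc {q : ℕ} (b : ZMod q) {M : ℕ} (hM : 1 ≤ M) :
    ∑ m ∈ Finset.range M, mc b m = ∑ m ∈ Finset.Icc 1 ⌊((M - 1 : ℕ) : ℝ)⌋₊, mc b m := by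
  rw [Nat.floor_natCast]
  have h4 : Finset.range M = insert 0 (Finset.Icc 1 (M - 1)) := by
    ext k; simp; omega
  have h5 : mc b 0 = 0 := by simp [mc]
  rw [h4, Finset.sum_insert (by simp), h5, zero_add]

/-- The elementary growth conditions. -/
lemma growth (A B : ℕ) (x₀ : ℝ) : ∀ᶠ N : ℕ in atTop,
    x₀ ≤ √(N : ℝ) ∧ (Real.log N) ^ B ≤ √(N : ℝ) / 2 ∧ (2 : ℝ) ^ A ≤ Real.log N ∧
      (2 : ℝ) ^ B ≤ Real.log N ∧ 16 ≤ N := by
  have hs : Tendsto (fun N : ℕ => √(N : ℝ)) atTop atTop :=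
    Real.tendsto_sqrt_atTop.comp tendsto_natCast_atTop_atTop
  have hl : Tendsto (fun N : ℕ => Real.log (N : ℝ)) atTop atTop :=
    Real.tendsto_log_atTop.comp tendsto_natCast_atTop_atTop
  have h1 : (fun x : ℝ => Real.log x ^ B) =o[atTop] (id : ℝ → ℝ) :=
    Real.isLittleO_pow_log_id_atTop
  have h2 := hs.eventually (h1.bound (c := 1 / 2 / 2 ^ B) (by positivity))
  filter_upwards [hs.eventually_ge_atTop x₀, h2, hl.eventually_ge_atTop ((2 : ℝ) ^ A),
    hl.eventually_ge_atTop ((2 : ℝ) ^ B), eventually_ge_atTop 16] with N g1 g2 g3 g4 g5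
  refine ⟨g1, ?_, g3, g4, g5⟩
  have hN : (16 : ℝ) ≤ N := by exact_mod_cast g5
  have hN0 : (0 : ℝ) < N := by linarith
  have hs1 : 1 ≤ √(N : ℝ) := Real.one_le_sqrt.mpr (by linarith)
  have hls : 0 ≤ Real.log (√(N : ℝ)) := Real.log_nonneg hs1
  rw [Real.norm_of_nonneg (by positivity), id, Real.norm_of_nonneg (by linarith)] at g2
  have h3 : Real.log N = 2 * Real.log (√(N : ℝ)) := by
    rw [Real.log_sqrt hN0.le]; ring
  rw [h3, mul_pow]
  calc 2 ^ B * Real.log √(N : ℝ) ^ B ≤ 2 ^ B * (1 / 2 / 2 ^ B * √(N : ℝ)) :=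
        mul_le_mul_of_nonneg_left g2 (by positivity)
    _ = √(N : ℝ) / 2 := by field_simp

/-- **Siegel–Walfisz for the Moebius function.** -/
theorem swMu : Pool.Agent.H807R2.SWMu := by
  intro A B
  set A' := A + B + 1 with hA'
  obtain ⟨x₀, hx₀, hM⟩ := Mx_bound A' (B + 1)
  have hev := growth (A + B + 1) (B + 1) (x₀ + 4)
  obtain ⟨N₀, hN₀⟩ := hev.exists_forall_of_atTop
  refine ⟨N₀, fun N hN q a hq hqB => ?_⟩
  obtain ⟨g1, g2, g3, g4, g5⟩ := hN₀ N hN
  have hNr : (16 : ℝ) ≤ N := by exact_mod_cast g5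
  have hN0 : (0 : ℝ) < N := by linarith
  set L := Real.log N with hL
  have hL1 : 1 ≤ L := le_trans (one_le_pow₀ (by norm_num)) g3
  have hL0 : 0 < L := by linarith
  have hrhs : 0 ≤ N / L ^ A := by positivity
  classical
  by_cases haq : a < q
  swap
  · have h0 : (Finset.range N).filter (fun n => n % q = a) = ∅ := by
      rw [Finset.filter_eq_empty_iff]
      intro n _ h
      have := Nat.mod_lt n hq
      omega
    rw [h0, Finset.sum_empty, abs_zero]
    exact hrhs
  obtain ⟨d, q1, a1, hd, hq1, hc, rfl, rfl⟩ : ∃ d q1 a1 : ℕ, 0 < d ∧ 0 < q1 ∧ Nat.Coprime a1 q1 ∧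
      q = d * q1 ∧ a = d * a1 := by
    have hg : 0 < Nat.gcd a q := Nat.gcd_pos_of_pos_right _ hq
    refine ⟨Nat.gcd a q, q / Nat.gcd a q, a / Nat.gcd a q, hg,
      Nat.div_pos (Nat.le_of_dvd hq (Nat.gcd_dvd_right _ _)) hg,
      Nat.coprime_div_gcd_div_gcd hg, ?_, ?_⟩
    · exact (Nat.mul_div_cancel' (Nat.gcd_dvd_right _ _)).symm
    · exact (Nat.mul_div_cancel' (Nat.gcd_dvd_left _ _)).symm
  have : NeZero (d * q1) := ⟨by positivity⟩
  set q := d * q1 with hqdef
  set S := Finset.univ.filter (fun b : ZMod (d * q1) => IsUnit b ∧ b.val % q1 = a1) with hS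
  set M := (N + d - 1) / d with hMdef
  have hdq : d ≤ q := Nat.le_mul_of_pos_right d hq1
  have hsum : ∑ n ∈ (Finset.range N).filter (fun n => n % q = d * a1),
      ((moebius n : ℤ) : ℝ) = ∑ b ∈ S, (moebius d : ℝ) * ∑ m ∈ Finset.range M, mc b m := by
    rw [Finset.sum_filter]
    have h1 := sum_dvd d N hd (fun m => (moebius d : ℝ) * ∑ b ∈ S, mc b m)
    have h2 : ∀ n ∈ Finset.range N, (if n % q = d * a1 then ((moebius n : ℤ) : ℝ) else 0) =
        if d ∣ n then (fun m => (moebius d : ℝ) * ∑ b ∈ S, mc b m) (n / d) else 0 :=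
      fun n _ => term_eq hd hc n
    rw [Finset.sum_congr rfl h2, h1, ← Finset.mul_sum, ← Finset.mul_sum, Finset.sum_comm]
  -- size of M
  have hdr : (1 : ℝ) ≤ d := by exact_mod_cast hd
  have hdB : (d : ℝ) ≤ L ^ B := le_trans (by exact_mod_cast hdq) hqB
  have hM1 : M - 1 = (N - 1) / d := by
    rw [hMdef]
    have : N + d - 1 = (N - 1) + d := by omega
    rw [this, Nat.add_div_right _ hd]
    exact Nat.add_sub_cancel _ _
  have hMge : 1 ≤ M := by
    rw [hMdef]
    exact (Nat.one_le_div_iff hd).mpr (by omega)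
  set x : ℝ := ((M - 1 : ℕ) : ℝ) with hx
  have hxN : x ≤ N := by
    rw [hx, hM1]
    exact_mod_cast (Nat.div_le_self _ _).trans (by omega)
  have hxlow : √(N : ℝ) ≤ x := by
    have h1 : (N : ℝ) ≤ d * (x + 1) := by
      have h2 : N - 1 < d * ((N - 1) / d + 1) := Nat.lt_mul_div_succ _ hd
      have h3 : N ≤ d * ((N - 1) / d + 1) := by omega
      rw [hx, hM1]
      exact_mod_cast h3
    have hBB : L ^ B ≤ L ^ (B + 1) := pow_le_pow_right₀ hL1 (by omega)
    have h4 : (d : ℝ) ≤ √(N : ℝ) / 2 := hdB.trans (hBB.trans g2)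
    have h5 : √(N : ℝ) * √(N : ℝ) = N := Real.mul_self_sqrt hN0.le
    have hs4 : 4 ≤ √(N : ℝ) := Real.le_sqrt_of_sq_le (by norm_num; linarith)
    have hx0 : 0 ≤ x := Nat.cast_nonneg _
    by_contra hcon
    push Not at hcon
    have h6 : (N : ℝ) ≤ √(N : ℝ) / 2 * (√(N : ℝ) + 1) := by
      refine h1.trans ?_
      apply mul_le_mul h4 (by linarith) (by linarith) (by positivity)
    nlinarith
  have hsN : 0 < √(N : ℝ) := by positivity
  have hx0 : 0 < x := lt_of_lt_of_le hsN hxlow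
  have hlogx : L / 2 ≤ Real.log x := by
    have h1 : Real.log (√(N : ℝ)) = L / 2 := Real.log_sqrt hN0.le
    rw [← h1]
    exact Real.log_le_log hsN hxlow
  have hLx0 : 0 < Real.log x := by linarith
  have hqx : (q : ℝ) ≤ (Real.log x) ^ (B + 1) := by
    refine hqB.trans ?_
    calc L ^ B = L ^ B * 1 := (mul_one _).symm
      _ ≤ L ^ B * (L / 2 ^ (B + 1)) := by
          apply mul_le_mul_of_nonneg_left _ (by positivity)
          rw [le_div_iff₀ (by positivity), one_mul]
          exact g4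
      _ = (L / 2) ^ (B + 1) := by rw [div_pow]; ring
      _ ≤ (Real.log x) ^ (B + 1) := pow_le_pow_left₀ (by positivity) hlogx _
  have hb : ∀ b ∈ S, |(moebius d : ℝ) * ∑ m ∈ Finset.range M, mc b m| ≤
      N * 2 ^ A' / L ^ A' := by
    intro b hb
    have hbu : IsUnit b := (Finset.mem_filter.mp hb).2.1
    rw [abs_mul, sum_range_mc b hMge]
    have h1 := unit_class_aux hbu (x := x) (Y := x / (Real.log x) ^ A')
      (fun χ => hM x (by linarith) q hqx χ)
    have h2 : |(moebius d : ℝ)| ≤ 1 := by exact_mod_cast abs_moebius_le_one (n := d)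
    calc |(moebius d : ℝ)| * |∑ m ∈ Finset.Icc 1 ⌊x⌋₊, mc b m| ≤ 1 * (x / (Real.log x) ^ A') :=
          mul_le_mul h2 h1 (abs_nonneg _) zero_le_one
      _ = x / (Real.log x) ^ A' := one_mul _
      _ ≤ N / (L / 2) ^ A' := by
          apply div_le_div₀ hN0.le hxN (by positivity)
          exact pow_le_pow_left₀ (by positivity) hlogx _
      _ = N * 2 ^ A' / L ^ A' := by rw [div_pow]; field_simp
  rw [hsum]
  refine (Finset.abs_sum_le_sum_abs _ _).trans ?_
  refine (Finset.sum_le_sum hb).trans ?_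
  rw [Finset.sum_const, nsmul_eq_mul]
  have hcard : (S.card : ℝ) ≤ L ^ B := by
    refine le_trans ?_ hqB
    have h1 : S.card ≤ q := by
      calc S.card ≤ (Finset.univ : Finset (ZMod (d * q1))).card := Finset.card_filter_le _ _
        _ = q := by rw [Finset.card_univ, ZMod.card]
    exact_mod_cast h1
  calc (S.card : ℝ) * (N * 2 ^ A' / L ^ A') ≤ L ^ B * (N * 2 ^ A' / L ^ A') :=
        mul_le_mul_of_nonneg_right hcard (by positivity)
    _ = (N / L ^ A) * (2 ^ A' / L) := by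
        rw [hA', pow_succ L (A + B), pow_add L A B]
        field_simp
    _ ≤ (N / L ^ A) * 1 := by
        apply mul_le_mul_of_nonneg_left _ hrhs
        rw [div_le_one hL0]
        exact g3
    _ = N / L ^ A := mul_one _

end Pool.Agent.H705R2.MSW
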