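import Pool.Agent.H27.G.R_seed8.H379R2.SWMain

/-!
Moebius version of `psiLog_bound` for nonprincipal characters.
-/

set_option autoImplicit false

open MeasureTheory Complex Filter Topology Set
open scoped Real

namespace Pool.Agent.H705R2.MSW

open Pool.Agent.H379R2.SW

variable {q : ℕ} [NeZero q]

/-- `1 / L(z) / z^2` -/
noncomputable def gL (χ : DirichletCharacter ℂ q) (z : ℂ) : ℂ :=
  (χ.LFunction z)⁻¹ / z ^ 2

lemma inv_ball {χ : DirichletCharacter ℂ q} (hχ : χ ≠ 1) {η : ℝ} (hη : 0 < η)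
    (hη2 : η < 1 / 2) {s : ℂ} {N m V : ℝ} (hs : 1 ≤ s.re) (hN : q * (‖s‖ + 3) ≤ N) (hm : 0 < m)
    (hm1 : m ≤ 1) (hL : m ≤ ‖χ.LFunction s‖) (hV : V = (9 + 1 / η) * N ^ (2 * η) / η) :
    ∀ z ∈ Metric.closedBall s (m / (4 * V)), χ.LFunction z ≠ 0 ∧
      ‖(χ.LFunction z)⁻¹‖ ≤ 4 * V / m := by
  have hq : (1 : ℝ) ≤ q := by exact_mod_cast NeZero.one_le
  have hns := norm_nonneg s
  have hN1 : 1 ≤ N := by nlinarith
  set W : ℝ := (9 + 1 / η) * N ^ (2 * η) with hW
  have hNη : 1 ≤ N ^ (2 * η) := Real.one_le_rpow hN1 (by linarith)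
  have hW9 : 9 ≤ W := by
    have : 0 < 1 / η := by positivity
    rw [hW]; nlinarith
  have hV9 : 9 / η ≤ V := by
    rw [hV]
    exact div_le_div_of_nonneg_right hW9 hη.le
  have hV0 : 0 < V := lt_of_lt_of_le (by positivity) hV9
  have hd : Differentiable ℂ χ.LFunction := DirichletCharacter.differentiable_LFunction hχ
  have hr : m / (4 * V) ≤ η / 2 := by
    rw [div_le_iff₀ (by positivity)]
    have h1 : 9 ≤ V * η := by rwa [div_le_iff₀ hη] at hV9
    nlinarith
  have hV1 : 1 ≤ V := by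
    have h1 : 9 ≤ V * η := by rwa [div_le_iff₀ hη] at hV9
    nlinarith
  have hder : ∀ w ∈ Metric.closedBall s (m / (4 * V)), ‖deriv χ.LFunction w‖ ≤ 2 * V := by
    intro w hw
    have hw' : ‖w - s‖ ≤ η / 2 := by
      rw [mem_closedBall_iff_norm] at hw
      exact hw.trans hr
    have h := norm_deriv_le_of_forall_mem_sphere_norm_le (c := w) (R := η / 2) (C := W)
      (half_pos hη) (f := χ.LFunction) hd.diffContOnCl ?_
    · refine h.trans (le_of_eq ?_)
      rw [hV]; field_simp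
    · intro u hu
      rw [mem_sphere_iff_norm] at hu
      have h1 : ‖u - s‖ ≤ η := by
        have : u - s = (u - w) + (w - s) := by ring
        rw [this]
        refine (norm_add_le _ _).trans ?_
        linarith
      have h2 : 1 - η ≤ u.re := by
        have h3 : |(u - s).re| ≤ η := (abs_re_le_norm _).trans h1
        rw [sub_re] at h3
        have := (abs_le.mp h3).1
        linarith
      have h4 : ‖u‖ ≤ ‖s‖ + 1 := by
        have : u = s + (u - s) := by ring
        rw [this]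
        refine (norm_add_le _ _).trans ?_
        linarith
      exact char_norm_le hχ hη hη2 h2 (by nlinarith)
  intro z hz
  have hlip : ‖χ.LFunction z - χ.LFunction s‖ ≤ 2 * V * ‖z - s‖ :=
    (convex_closedBall s (m / (4 * V))).norm_image_sub_le_of_norm_deriv_le
      (fun w _ => hd w) hder (Metric.mem_closedBall_self (by positivity)) hz
  rw [mem_closedBall_iff_norm] at hz
  have h1 : ‖χ.LFunction z - χ.LFunction s‖ ≤ m / 2 := by
    refine hlip.trans ?_
    calc 2 * V * ‖z - s‖ ≤ 2 * V * (m / (4 * V)) := mul_le_mul_of_nonneg_left hz (by positivity)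
      _ = m / 2 := by field_simp; norm_num
  have h2 : m / 2 ≤ ‖χ.LFunction z‖ := by
    have h3 : ‖χ.LFunction s‖ ≤ ‖χ.LFunction z‖ + ‖χ.LFunction z - χ.LFunction s‖ := by
      calc ‖χ.LFunction s‖ = ‖χ.LFunction z - (χ.LFunction z - χ.LFunction s)‖ := by
            congr 1; ring
        _ ≤ _ := norm_sub_le _ _
    linarith
  constructor
  · intro h0
    rw [h0, norm_zero] at h2
    linarith
  · rw [norm_inv]
    calc ‖χ.LFunction z‖⁻¹ ≤ (m / 2)⁻¹ := inv_anti₀ (by positivity) h2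
      _ ≤ 4 * V / m := by
        rw [inv_div, div_le_div_iff_of_pos_right hm]
        linarith

lemma gL_bound {χ : DirichletCharacter ℂ q} (hχ : χ ≠ 1) {c₁ : ℝ} (hc₁ : 0 < c₁) (hc₁1 : c₁ ≤ 1)
    {η : ℝ} (hη : 0 < η) (hη2 : η < 1 / 2)
    (hS : χ ^ 2 = 1 → c₁ * (q : ℝ) ^ (-η) ≤ ‖χ.LFunction 1‖) {c : ℝ} (hc : 1 < c) (hc2 : c ≤ 2)
    (ξ : ℝ) (j : ℕ) :
    ‖iteratedDeriv j (gL χ) (vert c ξ)‖ ≤ j.factorial * 4 *
      (17280 * ((9 + 1 / η) / η) ^ 8 / c₁ * (q * (2 * |2 * π * ξ| + 6)) ^ (17 * η)) ^ (j + 1) *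
        (‖vert c ξ‖ ^ 2)⁻¹ := by
  have hq : (1 : ℝ) ≤ q := by exact_mod_cast NeZero.one_le
  set t : ℝ := 2 * π * ξ with ht
  have ht0 : 0 ≤ |t| := abs_nonneg t
  set N : ℝ := q * (2 * |t| + 6) with hN
  have hqN : (q : ℝ) ≤ N := by rw [hN]; nlinarith
  have hN1 : 1 ≤ N := by linarith
  set K : ℝ := (9 + 1 / η) / η with hK
  set V : ℝ := (9 + 1 / η) * N ^ (2 * η) / η with hV
  have hVK : V = K * N ^ (2 * η) := by rw [hV, hK]; ring
  have hNη : 1 ≤ N ^ (2 * η) := Real.one_le_rpow hN1 (by linarith)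
  have hK0 : 0 < K := by positivity
  have hV0 : 0 < V := by positivity
  set σ : ℝ := c₁ * (q : ℝ) ^ (-η) with hσ
  have hqη : (q : ℝ) ^ (-η) ≤ 1 := Real.rpow_le_one_of_one_le_of_nonpos hq (by linarith)
  have hqη0 : 0 < (q : ℝ) ^ (-η) := Real.rpow_pos_of_pos (by linarith) _
  have hσ0 : 0 < σ := by positivity
  have hσ1 : σ ≤ 1 := by rw [hσ]; nlinarith
  have hvert : vert c ξ = 1 + ((c - 1 : ℝ) : ℂ) + I * (t : ℂ) := by
    simp only [vert, ht]
    push_cast
    ring
  have hlow := char_lower hχ hσ0 hσ1 hS hη hη2 (x := c - 1) (t := t) (N := N) (by linarith)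
    (by linarith) le_rfl hV
  rw [← hvert] at hlow
  set m : ℝ := σ / (4320 * V ^ 7) with hm
  have hV9 : 1 ≤ V := by
    rw [hV, le_div_iff₀ hη]
    have : 0 < 1 / η := by positivity
    nlinarith
  have hV7 : 1 ≤ V ^ 7 := one_le_pow₀ hV9
  have hm0 : 0 < m := by positivity
  have hm1 : m ≤ 1 := by
    rw [hm, div_le_one (by positivity)]
    nlinarith
  have hnormv : ‖vert c ξ‖ ≤ 2 + |t| := by
    rw [hvert]
    have e : (1 : ℂ) + ((c - 1 : ℝ) : ℂ) + I * (t : ℂ) = (c : ℂ) + I * t := by push_cast; ring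
    rw [e]
    refine (norm_add_le _ _).trans ?_
    rw [norm_mul, norm_I, one_mul, Complex.norm_real, Complex.norm_real,
      Real.norm_of_nonneg (by linarith), Real.norm_eq_abs]
    linarith
  have hball := inv_ball hχ hη hη2 (s := vert c ξ) (N := N) (m := m) (V := V)
    (by rw [vert_re]; linarith) (by rw [hN]; nlinarith) hm0 hm1 hlow hV
  have hd : Differentiable ℂ χ.LFunction := DirichletCharacter.differentiable_LFunction hχ
  have hρ : m / (4 * V) ≤ 1 / 2 := by
    rw [div_le_iff₀ (by positivity)]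
    nlinarith
  have h1v : 1 ≤ ‖vert c ξ‖ := by
    have := abs_re_le_norm (vert c ξ)
    rw [vert_re, abs_of_pos (by linarith)] at this
    linarith
  have h := cauchy_sq (g := fun z => (χ.LFunction z)⁻¹) (s := vert c ξ)
    (ρ := m / (4 * V)) (P := 4 * V / m) (by positivity) hρ h1v
    (fun z hz => (hd z).inv (hball z hz).1) (fun z hz => (hball z hz).2) j
  have hQ : 4 * V / m ≤ 17280 * K ^ 8 / c₁ * N ^ (17 * η) := by
    have e1 : 4 * V / m = 17280 * V ^ 8 / σ := by
      rw [hm]; field_simp; norm_num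
    have e2 : V ^ 8 = K ^ 8 * N ^ (16 * η) := by
      rw [hVK, mul_pow, ← Real.rpow_natCast (N ^ (2 * η)) 8, ← Real.rpow_mul (by linarith)]
      norm_num
      left
      congr 1
      ring
    have e3 : 17280 * V ^ 8 / σ = 17280 * K ^ 8 / c₁ * (N ^ (16 * η) * (q : ℝ) ^ η) := by
      rw [e2, hσ, Real.rpow_neg (by linarith)]
      field_simp
    have e4 : N ^ (17 * η) = N ^ (16 * η) * N ^ η := by
      rw [← Real.rpow_add (by linarith)]; congr 1; ring
    rw [e1, e3, e4]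
    apply mul_le_mul_of_nonneg_left _ (by positivity)
    apply mul_le_mul_of_nonneg_left _ (by positivity)
    exact Real.rpow_le_rpow (by linarith) hqN hη.le
  refine h.trans ?_
  apply mul_le_mul_of_nonneg_right _ (by positivity)
  have e5 : (j.factorial : ℝ) * (4 * (4 * V / m)) / (m / (4 * V)) ^ j =
      j.factorial * 4 * (4 * V / m) ^ (j + 1) := by
    have e6 : m / (4 * V) = (4 * V / m)⁻¹ := by rw [inv_div]
    rw [e6, inv_pow, div_inv_eq_mul]
    ring
  rw [e5]
  apply mul_le_mul_of_nonneg_left _ (by positivity)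
  exact pow_le_pow_left₀ (by positivity) hQ _

lemma gL_analytic {χ : DirichletCharacter ℂ q} (hχ : χ ≠ 1) :
    AnalyticOnNhd ℂ (gL χ) {z | 1 < z.re} := by
  have hd : Differentiable ℂ χ.LFunction := DirichletCharacter.differentiable_LFunction hχ
  apply DifferentiableOn.analyticOnNhd _ (isOpen_lt continuous_const continuous_re)
  intro z hz
  have hz1 : 1 < z.re := hz
  apply DifferentiableAt.differentiableWithinAt
  unfold gL
  apply DifferentiableAt.div
  · apply DifferentiableAt.inv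
    · exact hd z
    · exact DirichletCharacter.LFunction_ne_zero_of_one_le_re χ (Or.inl hχ) hz1.le
  · exact differentiableAt_id.pow 2
  · apply pow_ne_zero
    intro h0
    rw [h0] at hz1
    simp at hz1
    linarith

/-- the coefficients `χ(n) μ(n)` -/
noncomputable def cm (χ : DirichletCharacter ℂ q) (n : ℕ) : ℂ :=
  χ (n : ZMod q) * ((ArithmeticFunction.moebius n : ℤ) : ℂ)

omit [NeZero q] in
lemma cm_norm_le (χ : DirichletCharacter ℂ q) (n : ℕ) : ‖cm χ n‖ ≤ 1 := by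
  unfold cm
  rw [norm_mul]
  have h1 := χ.norm_le_one (n : ZMod q)
  have h2 : ‖((ArithmeticFunction.moebius n : ℤ) : ℂ)‖ ≤ 1 := by
    rw [Complex.norm_intCast]
    exact_mod_cast ArithmeticFunction.abs_moebius_le_one
  calc _ ≤ (1 : ℝ) * 1 := mul_le_mul h1 h2 (norm_nonneg _) zero_le_one
    _ = 1 := one_mul 1

omit [NeZero q] in
lemma cm_summable (χ : DirichletCharacter ℂ q) {s : ℂ} (hs : 1 < s.re) :
    LSeriesSummable (cm χ) s := by
  have h1 : LSeriesSummable (fun n => ((ArithmeticFunction.moebius n : ℤ) : ℂ)) s :=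
    ArithmeticFunction.LSeriesSummable_moebius_iff.mpr hs
  exact DirichletCharacter.LSeriesSummable_mul χ (f := fun n =>
    ((ArithmeticFunction.moebius n : ℤ) : ℂ)) h1

lemma cm_LSeries (χ : DirichletCharacter ℂ q) {s : ℂ} (hs : 1 < s.re) :
    LSeries (cm χ) s = (χ.LFunction s)⁻¹ := by
  have h1 := DirichletCharacter.LSeries.mul_mu_eq_one χ hs
  rw [DirichletCharacter.LFunction_eq_LSeries χ hs]
  exact eq_inv_of_mul_eq_one_right h1

/-- log weighted sum of `μ χ` -/
noncomputable def muLog (x : ℝ) (q : ℕ) (χ : DirichletCharacter ℂ q) : ℂ :=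
  ∑ n ∈ Finset.Icc 1 ⌊x⌋₊, cm χ n * ((Real.log (x / n) : ℝ) : ℂ)

/-- The main estimate: for a nonprincipal character, given a lower bound at `1` for quadratic
characters. -/
theorem muLog_bound (k : ℕ) {θ : ℝ} (hθ : 0 < θ) (hθ2 : θ ≤ 1 / 2) {c₁ : ℝ} (hc₁ : 0 < c₁)
    (hc₁1 : c₁ ≤ 1) : ∃ C : ℝ, 0 < C ∧ ∀ (q : ℕ) [NeZero q] (χ : DirichletCharacter ℂ q), χ ≠ 1 →
      (χ ^ 2 = 1 → c₁ * (q : ℝ) ^ (-(θ / (17 * (k + 1)))) ≤ ‖χ.LFunction 1‖) →
      ∀ x : ℝ, Real.exp 1 ≤ x →
        ‖muLog x q χ‖ ≤ C * x * (q : ℝ) ^ θ / (Real.log x) ^ k := by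
  set η : ℝ := θ / (17 * (k + 1)) with hη
  have hk1 : (1 : ℝ) ≤ (k : ℝ) + 1 := by linarith [Nat.cast_nonneg (α := ℝ) k]
  have hη0 : 0 < η := by positivity
  have hη2 : η < 1 / 2 := by
    rw [hη, div_lt_iff₀ (by positivity)]
    nlinarith
  set CQ : ℝ := 17280 * ((9 + 1 / η) / η) ^ 8 / c₁ with hCQ
  have hCQ0 : 0 < CQ := by positivity
  have hCQ1 : 1 ≤ CQ := by
    rw [hCQ, le_div_iff₀ hc₁]
    have h1 : 1 ≤ (9 + 1 / η) / η := by
      rw [le_div_iff₀ hη0]
      have : 0 < 1 / η := by positivity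
      nlinarith
    have h2 : 1 ≤ ((9 + 1 / η) / η) ^ 8 := one_le_pow₀ h1
    nlinarith
  set J : ℝ := ∫ ξ : ℝ, (1 + |ξ|) ^ (-(3 / 2 : ℝ)) with hJ
  have hJ0 : 0 ≤ J := integral_nonneg (fun ξ => by positivity)
  refine ⟨Real.exp 1 * (k.factorial * 4 * CQ ^ (k + 1) * 8 * (J + 1)), by positivity, ?_⟩
  intro q _ χ hχ hS x hx
  have hx0 : 0 < x := lt_of_lt_of_le (Real.exp_pos 1) hx
  have hlog : 1 ≤ Real.log x := by
    rw [Real.le_log_iff_exp_le hx0]; exact hx
  have hlog0 : 0 < Real.log x := by linarith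
  have hx1 : 1 ≤ x := by
    have := Real.add_one_le_exp 1
    linarith
  have hq : (1 : ℝ) ≤ q := by exact_mod_cast NeZero.one_le
  set c : ℝ := 1 + 1 / Real.log x with hc
  have hc1 : 1 < c := by
    have : 0 < 1 / Real.log x := by positivity
    linarith
  have hc2 : c ≤ 2 := by
    have : 1 / Real.log x ≤ 1 := by
      rw [div_le_one hlog0]; exact hlog
    linarith
  have hsum : LSeriesSummable (cm χ) (c : ℂ) := cm_summable χ (by simpa using hc1)
  unfold muLog
  rw [perron_sum (cm χ) hc1.le hsum hx1, norm_mul, Complex.norm_real,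
    Real.norm_of_nonneg (Real.exp_pos _).le]
  have hLf : ∀ ξ : ℝ, LSeries (cm χ) (vert c ξ) / (vert c ξ) ^ 2 = gL χ (vert c ξ) := by
    intro ξ
    have h1 : 1 < (vert c ξ).re := by rw [vert_re]; exact hc1
    unfold gL
    rw [cm_LSeries χ h1]
  simp only [hLf]
  -- pointwise bounds
  have hpt : ∀ j ≤ k, ∀ ξ : ℝ, ‖iteratedDeriv j (gL χ) (vert c ξ)‖ ≤
      k.factorial * 4 * CQ ^ (k + 1) * 8 * (q : ℝ) ^ θ * (1 + |ξ|) ^ (-(3 / 2 : ℝ)) := by
    intro j hj ξ
    refine (gL_bound hχ hc₁ hc₁1 hη0 hη2 hS hc1 hc2 ξ j).trans ?_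
    rw [← hCQ]
    set Y : ℝ := q * (2 * |2 * π * ξ| + 6) with hY
    have hY1 : 1 ≤ Y := by
      have := abs_nonneg (2 * π * ξ)
      rw [hY]; nlinarith
    have hYη : 1 ≤ Y ^ (17 * η) := Real.one_le_rpow hY1 (by positivity)
    have h1 : (CQ * Y ^ (17 * η)) ^ (j + 1) ≤ CQ ^ (k + 1) * Y ^ θ := by
      calc (CQ * Y ^ (17 * η)) ^ (j + 1) ≤ (CQ * Y ^ (17 * η)) ^ (k + 1) := by
            apply pow_le_pow_right₀ _ (by omega)
            nlinarith
        _ = CQ ^ (k + 1) * Y ^ θ := by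
            rw [mul_pow, ← Real.rpow_natCast (Y ^ (17 * η)), ← Real.rpow_mul (by linarith)]
            congr 2
            rw [hη]
            push_cast
            field_simp
    have h2 := weight_le hθ hθ2 hc1.le ξ hq
    rw [← hY] at h2
    have h3 : (j.factorial : ℝ) ≤ k.factorial := by
      exact_mod_cast Nat.factorial_le hj
    calc (j.factorial : ℝ) * 4 * (CQ * Y ^ (17 * η)) ^ (j + 1) * (‖vert c ξ‖ ^ 2)⁻¹
        ≤ (k.factorial : ℝ) * 4 * (CQ ^ (k + 1) * Y ^ θ) * (‖vert c ξ‖ ^ 2)⁻¹ := by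
          apply mul_le_mul_of_nonneg_right _ (by positivity)
          apply mul_le_mul _ h1 (by positivity) (by positivity)
          exact mul_le_mul_of_nonneg_right h3 (by norm_num)
      _ = (k.factorial : ℝ) * 4 * CQ ^ (k + 1) * (Y ^ θ * (‖vert c ξ‖ ^ 2)⁻¹) := by ring
      _ ≤ (k.factorial : ℝ) * 4 * CQ ^ (k + 1) *
            ((q : ℝ) ^ θ * (8 * (1 + |ξ|) ^ (-(3 / 2 : ℝ)))) :=
          mul_le_mul_of_nonneg_left h2 (by positivity)
      _ = _ := by ring
  have hmem : ∀ ξ, vert c ξ ∈ {z : ℂ | 1 < z.re} := by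
    intro ξ
    show 1 < (vert c ξ).re
    rw [vert_re]; exact hc1
  have hint : ∀ j ≤ k, Integrable (fun ξ => iteratedDeriv j (gL χ) (vert c ξ)) := by
    intro j hj
    refine Integrable.mono' (integrable_J.const_mul
      (k.factorial * 4 * CQ ^ (k + 1) * 8 * (q : ℝ) ^ θ)) ?_ (Eventually.of_forall (hpt j hj))
    apply Continuous.aestronglyMeasurable
    rw [iteratedDeriv_eq_iterate, continuous_iff_continuousAt]
    intro ξ
    exact ContinuousAt.comp ((gL_analytic hχ _ (hmem ξ)).iterated_deriv j).continuousAt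
      (continuous_vert c).continuousAt
  rw [int_by_parts (gL_analytic hχ) hc1 hlog0 k hint]
  have hI : ‖∫ ξ : ℝ, iteratedDeriv k (gL χ) (vert c ξ) *
        cexp (((2 * π * ξ * Real.log x : ℝ) : ℂ) * I)‖ ≤
      k.factorial * 4 * CQ ^ (k + 1) * 8 * (q : ℝ) ^ θ * J := by
    rw [hJ, ← integral_const_mul]
    apply norm_integral_le_of_norm_le (integrable_J.const_mul _)
    refine Eventually.of_forall (fun ξ => ?_)
    rw [norm_mul, Complex.norm_exp_ofReal_mul_I, mul_one]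
    exact hpt k le_rfl ξ
  have hexp : Real.exp (c * Real.log x) = Real.exp 1 * x := by
    have h1 : c * Real.log x = 1 + Real.log x := by
      rw [hc]; field_simp; ring
    rw [h1, Real.exp_add, Real.exp_log hx0]
  rw [hexp]
  calc Real.exp 1 * x * (1 / Real.log x ^ k * ‖∫ ξ : ℝ, iteratedDeriv k (gL χ) (vert c ξ) *
        cexp (((2 * π * ξ * Real.log x : ℝ) : ℂ) * I)‖)
      ≤ Real.exp 1 * x * (1 / Real.log x ^ k *
          (k.factorial * 4 * CQ ^ (k + 1) * 8 * (q : ℝ) ^ θ * (J + 1))) := by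
        apply mul_le_mul_of_nonneg_left _ (by positivity)
        apply mul_le_mul_of_nonneg_left _ (by positivity)
        refine hI.trans ?_
        apply mul_le_mul_of_nonneg_left _ (by positivity)
        linarith
    _ = _ := by ring

end Pool.Agent.H705R2.MSW
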