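import Pool.Agent.H27.G.R_seed8.H705R2.MLogB
import Pool.Agent.H27.G.R_seed8.H705R2.MLogD

/-!
Siegel–Walfisz for the Moebius function: character sums.
-/

set_option autoImplicit false

open MeasureTheory Complex Filter Topology Set
open scoped Real

namespace Pool.Agent.H705R2.MSW

theorem muLog_all (k : ℕ) : ∃ C : ℝ, 0 < C ∧ ∀ (q : ℕ) [NeZero q] (χ : DirichletCharacter ℂ q),
    ∀ x : ℝ, Real.exp 2 ≤ x →
      ‖muLog x q χ‖ ≤ C * x * (q : ℝ) ^ 2 / (Real.log x) ^ k := by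
  obtain ⟨C₁, hC₁, h1⟩ := muLog_nonprincipal k (θ := 1 / 2) (by norm_num) le_rfl
  obtain ⟨C₂, hC₂, h2⟩ := muLog_principal k
  refine ⟨C₁ + C₂, by positivity, fun q _ χ x hx => ?_⟩
  have hx0 : 0 < x := lt_of_lt_of_le (Real.exp_pos 2) hx
  have hlog : 2 ≤ Real.log x := by
    rw [Real.le_log_iff_exp_le hx0]; exact hx
  have hq : (1 : ℝ) ≤ q := by exact_mod_cast NeZero.one_le
  have hL : 0 < (Real.log x) ^ k := by positivity
  by_cases hχ : χ = 1
  · rw [hχ]
    refine (h2 q x hx).trans ?_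
    apply div_le_div_of_nonneg_right _ hL.le
    apply mul_le_mul_of_nonneg_right _ (by positivity)
    apply mul_le_mul_of_nonneg_right _ hx0.le
    linarith
  · refine (h1 q χ hχ x ?_).trans ?_
    · rw [← Real.le_log_iff_exp_le hx0]; linarith
    · apply div_le_div_of_nonneg_right _ hL.le
      have h3 : (q : ℝ) ^ (1 / 2 : ℝ) ≤ (q : ℝ) ^ 2 := by
        rw [← Real.rpow_natCast (q : ℝ) 2]
        exact Real.rpow_le_rpow_of_exponent_le hq (by norm_num)
      apply mul_le_mul _ h3 (by positivity) (by positivity)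
      apply mul_le_mul_of_nonneg_right _ hx0.le
      linarith

variable {q : ℕ} [NeZero q]

/-- `∑_{n ≤ x} μ(n) χ(n)` -/
noncomputable def Mx (x : ℝ) (q : ℕ) (χ : DirichletCharacter ℂ q) : ℂ :=
  ∑ n ∈ Finset.Icc 1 ⌊x⌋₊, cm χ n

omit [NeZero q] in
lemma unsmooth (χ : DirichletCharacter ℂ q) {x h : ℝ} (hx : 1 ≤ x) (hh : 0 < h) (hh1 : h ≤ 1) :
    h * ‖Mx x q χ‖ ≤ ‖muLog (x * Real.exp h) q χ‖ + ‖muLog x q χ‖ + (2 * h * x + 1) * h := by
  have hx0 : 0 < x := by linarith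
  have he1 : 1 ≤ Real.exp h := Real.one_le_exp hh.le
  set y : ℝ := x * Real.exp h with hy
  have hxy : x ≤ y := by rw [hy]; nlinarith
  have hy0 : 0 < y := by linarith
  have hsub : Finset.Icc 1 ⌊x⌋₊ ⊆ Finset.Icc 1 ⌊y⌋₊ :=
    Finset.Icc_subset_Icc_right (Nat.floor_le_floor hxy)
  have hlogy : ∀ n : ℕ, 0 < n → Real.log (y / n) = Real.log (x / n) + h := by
    intro n hn
    have hn' : (0 : ℝ) < n := by exact_mod_cast hn
    have : y / n = (x / n) * Real.exp h := by rw [hy]; ring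
    rw [this, Real.log_mul (by positivity) (Real.exp_pos h).ne', Real.log_exp]
  have hsplit : muLog y q χ = (muLog x q χ + (h : ℂ) * Mx x q χ) +
      ∑ n ∈ Finset.Icc 1 ⌊y⌋₊ \ Finset.Icc 1 ⌊x⌋₊, cm χ n * ((Real.log (y / n) : ℝ) : ℂ) := by
    unfold muLog Mx
    rw [← Finset.sum_sdiff hsub, add_comm]
    congr 1
    rw [Finset.mul_sum, ← Finset.sum_add_distrib]
    apply Finset.sum_congr rfl
    intro n hn
    rw [Finset.mem_Icc] at hn
    rw [hlogy n (by omega)]
    push_cast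
    ring
  have hexp : Real.exp h - 1 ≤ 2 * h := by
    have := Real.abs_exp_sub_one_le (x := h) (by rw [abs_of_pos hh]; exact hh1)
    rw [abs_of_nonneg (by linarith), abs_of_pos hh] at this
    exact this
  have hcard : ((Finset.Icc 1 ⌊y⌋₊ \ Finset.Icc 1 ⌊x⌋₊).card : ℝ) ≤ 2 * h * x + 1 := by
    rw [Finset.card_sdiff_of_subset hsub, Nat.card_Icc, Nat.card_Icc, Nat.add_sub_cancel,
      Nat.add_sub_cancel, Nat.cast_sub (Nat.floor_le_floor hxy)]
    have h1 := Nat.floor_le hy0.le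
    have h2 := Nat.lt_floor_add_one x
    have h3 : y - x ≤ 2 * h * x := by
      have : y - x = x * (Real.exp h - 1) := by rw [hy]; ring
      rw [this]
      nlinarith
    linarith
  have hrest : ‖∑ n ∈ Finset.Icc 1 ⌊y⌋₊ \ Finset.Icc 1 ⌊x⌋₊,
      cm χ n * ((Real.log (y / n) : ℝ) : ℂ)‖ ≤ (2 * h * x + 1) * h := by
    calc _ ≤ ∑ n ∈ Finset.Icc 1 ⌊y⌋₊ \ Finset.Icc 1 ⌊x⌋₊, h := by
          refine norm_sum_le_of_le _ (fun n hn => ?_)
          rw [Finset.mem_sdiff, Finset.mem_Icc, Finset.mem_Icc] at hn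
          obtain ⟨⟨h1, h2⟩, h3⟩ := hn
          have h4 : ⌊x⌋₊ < n := by
            by_contra hcon
            exact h3 ⟨h1, not_lt.mp hcon⟩
          have hn0 : (0 : ℝ) < n := by exact_mod_cast h1
          have h5 : x < n := (Nat.floor_lt hx0.le).mp h4
          have h6 : (n : ℝ) ≤ y := (Nat.le_floor_iff hy0.le).mp h2
          rw [norm_mul, Complex.norm_real]
          have h7 : 0 ≤ Real.log (y / n) := Real.log_nonneg (by rw [le_div_iff₀ hn0]; linarith)
          have h8 : Real.log (y / n) ≤ h := by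
            rw [hlogy n (by omega)]
            have : Real.log (x / n) ≤ 0 := Real.log_nonpos (by positivity) (by
              rw [div_le_one hn0]; linarith)
            linarith
          rw [Real.norm_of_nonneg h7]
          calc _ ≤ 1 * Real.log (y / n) := mul_le_mul_of_nonneg_right (cm_norm_le χ n) h7
            _ ≤ h := by linarith
      _ = ((Finset.Icc 1 ⌊y⌋₊ \ Finset.Icc 1 ⌊x⌋₊).card : ℝ) * h := by
          rw [Finset.sum_const, nsmul_eq_mul]
      _ ≤ _ := mul_le_mul_of_nonneg_right hcard hh.le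
  have hM : (h : ℂ) * Mx x q χ = muLog y q χ - muLog x q χ -
      ∑ n ∈ Finset.Icc 1 ⌊y⌋₊ \ Finset.Icc 1 ⌊x⌋₊, cm χ n * ((Real.log (y / n) : ℝ) : ℂ) := by
    rw [hsplit]; ring
  have hnM : h * ‖Mx x q χ‖ = ‖(h : ℂ) * Mx x q χ‖ := by
    rw [norm_mul, Complex.norm_real, Real.norm_of_nonneg hh.le]
  rw [hnM, hM]
  refine (norm_sub_le _ _).trans ?_
  have := norm_sub_le (muLog y q χ) (muLog x q χ)
  linarith

/-- Siegel–Walfisz for `μ χ`, all characters. -/
theorem Mx_bound (A B : ℕ) : ∃ x₀ : ℝ, 1 ≤ x₀ ∧ ∀ x : ℝ, x₀ ≤ x → ∀ (q : ℕ) [NeZero q],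
    (q : ℝ) ≤ (Real.log x) ^ B → ∀ χ : DirichletCharacter ℂ q,
      ‖Mx x q χ‖ ≤ x / (Real.log x) ^ A := by
  obtain ⟨C, hC, hmu⟩ := muLog_all (2 * (A + 1) + 2 * B)
  have hlittle : ∀ᶠ x : ℝ in atTop, 2 * (Real.log x) ^ A ≤ x := by
    have h1 : (fun x : ℝ => Real.log x ^ A) =o[atTop] (id : ℝ → ℝ) :=
      Real.isLittleO_pow_log_id_atTop
    have h2 := h1.bound (c := 1 / 2) (by norm_num)
    filter_upwards [h2, eventually_ge_atTop 1] with x hx hx1
    have hl : 0 ≤ Real.log x := Real.log_nonneg hx1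
    rw [Real.norm_of_nonneg (by positivity), id, Real.norm_of_nonneg (by linarith)] at hx
    linarith
  obtain ⟨x₁, hx₁⟩ := (hlittle.and (eventually_ge_atTop (Real.exp (2 * (4 * C + 2))))).exists_forall_of_atTop
  refine ⟨max x₁ 1, le_max_right _ _, fun x hx q _ hq χ => ?_⟩
  obtain ⟨h1, h2⟩ := hx₁ x ((le_max_left _ _).trans hx)
  have hx1 : 1 ≤ x := (le_max_right _ _).trans hx
  have hx0 : 0 < x := by linarith
  have hL : 2 * (4 * C + 2) ≤ Real.log x := by
    rw [Real.le_log_iff_exp_le hx0]; exact h2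
  set L := Real.log x with hLdef
  have hL2 : 4 ≤ L := by linarith
  have hL0 : 0 < L := by linarith
  have hxe : Real.exp 2 ≤ x := by
    rw [← Real.le_log_iff_exp_le hx0]; linarith
  set h : ℝ := 1 / L ^ (A + 1) with hh
  have hLA : 1 ≤ L ^ (A + 1) := one_le_pow₀ (by linarith)
  have hh0 : 0 < h := by positivity
  have hh1 : h ≤ 1 := by rw [hh, div_le_one (by positivity)]; exact hLA
  have hun := unsmooth χ hx1 hh0 hh1
  have he1 : 1 ≤ Real.exp h := Real.one_le_exp hh0.le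
  have he3 : Real.exp h ≤ 3 := by
    calc Real.exp h ≤ Real.exp 1 := Real.exp_le_exp.mpr hh1
      _ ≤ 3 := by have := Real.exp_one_lt_d9; linarith
  have hqr : (0 : ℝ) ≤ q := Nat.cast_nonneg q
  have hq2 : (q : ℝ) ^ 2 ≤ L ^ (2 * B) := by
    calc (q : ℝ) ^ 2 ≤ (L ^ B) ^ 2 := pow_le_pow_left₀ hqr hq 2
      _ = L ^ (2 * B) := by rw [← pow_mul, mul_comm]
  have hb : ∀ z : ℝ, 0 ≤ z → L ≤ Real.log z → Real.exp 2 ≤ z → z ≤ 3 * x →
      ‖muLog z q χ‖ ≤ C * z / L ^ (2 * (A + 1)) := by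
    intro z hz0 hz1 hz2 _
    refine (hmu q χ z hz2).trans ?_
    calc C * z * (q : ℝ) ^ 2 / Real.log z ^ (2 * (A + 1) + 2 * B)
        ≤ C * z * L ^ (2 * B) / L ^ (2 * (A + 1) + 2 * B) := by
          apply div_le_div₀ (by positivity) _ (by positivity) _
          · exact mul_le_mul_of_nonneg_left hq2 (by positivity)
          · exact pow_le_pow_left₀ hL0.le hz1 _
      _ = C * z / L ^ (2 * (A + 1)) := by
          rw [pow_add]; field_simp
  have hy1 : L ≤ Real.log (x * Real.exp h) := by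
    rw [Real.log_mul hx0.ne' (Real.exp_pos h).ne', Real.log_exp]; linarith
  have hyx : x * Real.exp h ≤ 3 * x := by nlinarith
  have hb1 := hb x hx0.le le_rfl hxe (by linarith)
  have hb2 := hb (x * Real.exp h) (by positivity) hy1 (hxe.trans (by nlinarith)) hyx
  have hb2' : ‖muLog (x * Real.exp h) q χ‖ ≤ C * (3 * x) / L ^ (2 * (A + 1)) := by
    refine hb2.trans ?_
    apply div_le_div_of_nonneg_right _ (by positivity)
    exact mul_le_mul_of_nonneg_left hyx hC.le
  -- combine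
  have hcomb : h * ‖Mx x q χ‖ ≤ h * ((4 * C + 2) * x / L ^ (A + 1) + 1) := by
    have e1 : C * x / L ^ (2 * (A + 1)) = h * (C * x / L ^ (A + 1)) := by
      rw [hh, two_mul, pow_add]; field_simp
    have e2 : C * (3 * x) / L ^ (2 * (A + 1)) = h * (3 * C * x / L ^ (A + 1)) := by
      rw [hh, two_mul, pow_add]; field_simp
    have e3 : (2 * h * x + 1) * h = h * (2 * x / L ^ (A + 1) + 1) := by
      rw [hh]; field_simp
    rw [e1] at hb1
    rw [e2] at hb2'
    rw [e3] at hun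
    have e4 : h * ((4 * C + 2) * x / L ^ (A + 1) + 1) = h * (3 * C * x / L ^ (A + 1)) +
      h * (C * x / L ^ (A + 1)) + h * (2 * x / L ^ (A + 1) + 1) := by ring
    rw [e4]
    linarith
  have hM := le_of_mul_le_mul_left hcomb hh0
  refine hM.trans ?_
  have hLA0 : 0 < L ^ A := by positivity
  have e5 : (4 * C + 2) * x / L ^ (A + 1) ≤ (1 / 2) * (x / L ^ A) := by
    rw [pow_succ]
    have : (4 * C + 2) * x / (L ^ A * L) = ((4 * C + 2) / L) * (x / L ^ A) := by field_simp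
    rw [this]
    apply mul_le_mul_of_nonneg_right _ (by positivity)
    rw [div_le_iff₀ hL0]
    linarith
  have e6 : 1 ≤ (1 / 2) * (x / L ^ A) := by
    have : 2 ≤ x / L ^ A := by
      rw [le_div_iff₀ hLA0]; exact h1
    linarith
  linarith

end Pool.Agent.H705R2.MSW
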